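import Pool.Agent.H59.Fib.K.Up3
import Pool.Agent.H59.Fib.K.Up5
import Pool.Agent.H59.Fib.K.Low2

/-!
# The smallest fibre constant of ordered sets of small linear discrepancy

An ordered set is `K`-narrow if it has a linear extension such that at every time at most `K` of
the earlier elements are incomparable to a later element.  Ordered sets of linear discrepancy at
most `K` are `K`-narrow.  We determine the smallest fibre constant of both classes for `K ≤ 5`.
-/

namespace Pool.Agent.Results.MP_14adb8_co.NarrowOrders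

open Finset

/-- `F` meets every maximal antichain with at least two elements. -/
def IsFibre {P : Type} [PartialOrder P] (F : Finset P) : Prop :=
  ∀ A : Set P, IsMaxAntichain (· ≤ ·) A → A.Nontrivial → ∃ x ∈ A, x ∈ F

/-- The minimum size of a fibre. -/
noncomputable def fibreNumber (P : Type) [PartialOrder P] : ℕ :=
  sInf {k : ℕ | ∃ F : Finset P, IsFibre F ∧ F.card = k}

/-- The elements numbered before `t` which are incomparable to an element numbered `t` or later. -/
def active {P : Type} [PartialOrder P] {n : ℕ} (e : P ≃ Fin n) (t : ℕ) : Set P :=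
  {x : P | (e x : ℕ) < t ∧ ∃ y : P, t ≤ (e y : ℕ) ∧ ¬ x ≤ y ∧ ¬ y ≤ x}

/-- There is a linear extension such that at every time at most `K` of the earlier elements are
incomparable to a later element. -/
def Narrow (P : Type) [PartialOrder P] (K : ℕ) : Prop :=
  ∃ (n : ℕ) (e : P ≃ Fin n), (∀ x y : P, x < y → e x < e y) ∧
    ∀ t : ℕ, (active e t).ncard ≤ K

/-- The supremum of `f(P) / |P|` over all finite nonempty `K`-narrow ordered sets `P`. -/
noncomputable def narrowConst (K : ℕ) : ℝ :=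
  sSup {r : ℝ | ∃ (n : ℕ) (_ : PartialOrder (Fin (n + 1))), Narrow (Fin (n + 1)) K ∧
    r = (fibreNumber (Fin (n + 1)) : ℝ) / (n + 1 : ℕ)}

/-- The linear discrepancy is at most `K`: some linear extension puts any two incomparable elements
at distance at most `K`. -/
def DiscLe (P : Type) [PartialOrder P] (K : ℕ) : Prop :=
  ∃ (n : ℕ) (e : P ≃ Fin n), (∀ x y : P, x < y → e x < e y) ∧
    ∀ x y : P, ¬ x ≤ y → ¬ y ≤ x → (e x : ℕ) ≤ (e y : ℕ) + K

/-- The supremum of `f(P) / |P|` over all finite nonempty ordered sets `P` of linear discrepancy at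
most `K`. -/
noncomputable def discConst (K : ℕ) : ℝ :=
  sSup {r : ℝ | ∃ (n : ℕ) (_ : PartialOrder (Fin (n + 1))), DiscLe (Fin (n + 1)) K ∧
    r = (fibreNumber (Fin (n + 1)) : ℝ) / (n + 1 : ℕ)}

theorem Narrow.mono {P : Type} [PartialOrder P] {K L : ℕ} (h : Narrow P K) (hKL : K ≤ L) :
    Narrow P L := by
  obtain ⟨n, e, h1, h2⟩ := h
  exact ⟨n, e, h1, fun t => (h2 t).trans hKL⟩

theorem DiscLe.mono {P : Type} [PartialOrder P] {K L : ℕ} (h : DiscLe P K) (hKL : K ≤ L) :
    DiscLe P L := by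
  obtain ⟨n, e, h1, h2⟩ := h
  refine ⟨n, e, h1, fun x y hx hy => ?_⟩
  have := h2 x y hx hy
  omega

theorem DiscLe.narrow {P : Type} [PartialOrder P] {K : ℕ} (h : DiscLe P K) : Narrow P K := by
  obtain ⟨n, e, h1, h2⟩ := h
  refine ⟨n, e, h1, fun t => ?_⟩
  have h3 : (active e t).ncard ≤ (((Finset.Ico (t - K) t : Finset ℕ)) : Set ℕ).ncard := by
    apply Set.ncard_le_ncard_of_injOn (fun x : P => (e x : ℕ))
    · rintro x ⟨hx, y, hy, h4, h5⟩
      have h6 := h2 y x h5 h4
      rw [mem_coe, mem_Ico]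
      constructor
      · omega
      · exact hx
    · intro x _ y _ hxy
      exact e.injective (Fin.ext hxy)
  rw [Set.ncard_coe_finset, Nat.card_Ico] at h3
  omega

theorem exists_fibre {q T N K A : ℕ} (hA : Pool.Agent.H59.Fib.K.chkAV3 A = true)
    (hq : q < 128) (hE : Pool.Agent.H59.Fib.K.chkEnd3 T N = true)
    (hchk : ∀ j < N, ∃ S, Pool.Agent.H59.Fib.K.chkState3 q A T N K j S = true)
    (P : Type) [PartialOrder P] [Fintype P] (h : Narrow P K) :
    q * fibreNumber P ≤ 8 * Fintype.card P := by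
  classical
  rcases isEmpty_or_nonempty P with hP | hP
  · have h0 : fibreNumber P ≤ 0 := by
      refine Nat.sInf_le ⟨∅, ?_, rfl⟩
      rintro A - ⟨x, -⟩
      exact (hP.false x).elim
    have h1 : fibreNumber P = 0 := by omega
    rw [h1]; simp
  · obtain ⟨n, e, he, hact⟩ := h
    have hn : Fintype.card P = n := by
      rw [Fintype.card_congr e, Fintype.card_fin]
    have hK : ∀ t, (Pool.Agent.H59.Fib.K.Act e t).card ≤ K := by
      intro t
      refine le_trans (le_of_eq ?_) (hact t)
      rw [← Set.ncard_coe_finset]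
      congr 1
      ext x
      rw [mem_coe, Pool.Agent.H59.Fib.K.mem_Act]
      rfl
    obtain ⟨F, hF1, hF2⟩ := Pool.Agent.H59.Fib.K.exists_small3 hA hq hE hchk e he hK
    have hF : IsFibre F := by
      intro B hB hne
      have hBf : B.Finite := Set.toFinite B
      obtain ⟨x, hx, hxF⟩ := hF2 hBf.toFinset (by
          intro a ha b hb hab
          rw [Set.Finite.mem_toFinset] at ha hb
          exact hB.1 ha hb hab.ne hab.le) (by
          intro x hx
          rw [Set.Finite.mem_toFinset] at hx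
          by_contra hcon
          push Not at hcon
          have h1 : IsAntichain (· ≤ ·) (insert x B) := by
            refine hB.1.insert (fun b hb hne => ?_) (fun b hb hne => ?_)
            · intro hle
              exact (hcon b (by rw [Set.Finite.mem_toFinset]; exact hb)).1
                (lt_of_le_of_ne hle hne.symm)
            · intro hle
              exact (hcon b (by rw [Set.Finite.mem_toFinset]; exact hb)).2
                (lt_of_le_of_ne hle hne)
          have h2 := hB.2 h1 (Set.subset_insert x B)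
          exact hx (by rw [h2]; exact Set.mem_insert x B)) (by
          have h1 : 1 < B.ncard := by
            rw [Set.one_lt_ncard_iff hBf]
            obtain ⟨a, ha, b, hb, hab⟩ := hne
            exact ⟨a, b, ha, hb, hab⟩
          rwa [Set.ncard_eq_toFinset_card B hBf] at h1)
      exact ⟨x, by rwa [Set.Finite.mem_toFinset] at hx, hxF⟩
    have h1 : fibreNumber P ≤ F.card := Nat.sInf_le ⟨F, hF, rfl⟩
    rw [hn]
    exact (Nat.mul_le_mul_left q h1).trans hF1

theorem three (P : Type) [PartialOrder P] [Fintype P] (h : Narrow P 3) :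
    2 * fibreNumber P ≤ Fintype.card P := by
  have := exists_fibre Pool.Agent.H59.Fib.K.av3_ok (by norm_num) Pool.Agent.H59.Fib.K.end3
    Pool.Agent.H59.Fib.K.chk3 P h
  omega

theorem five (P : Type) [PartialOrder P] [Fintype P] (h : Narrow P 5) :
    15 * fibreNumber P ≤ 8 * Fintype.card P :=
  exists_fibre Pool.Agent.H59.Fib.K.av5_ok (by norm_num) Pool.Agent.H59.Fib.K.end5
    Pool.Agent.H59.Fib.K.chk5 P h

/-- Every fibre number in the set of a constant is at least the size of some fibre. -/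
theorem exists_fibre_eq (P : Type) [PartialOrder P] [Fintype P] :
    ∃ F : Finset P, IsFibre F ∧ F.card = fibreNumber P := by
  classical
  have h : {k : ℕ | ∃ F : Finset P, IsFibre F ∧ F.card = k}.Nonempty := by
    refine ⟨_, univ, ?_, rfl⟩
    intro A _ hne
    obtain ⟨x, hx⟩ := hne.nonempty
    exact ⟨x, hx, mem_univ x⟩
  exact Nat.sInf_mem h

theorem narrowConst_le {K : ℕ} {c : ℝ}
    (h : ∀ (P : Type) [PartialOrder P] [Fintype P], Narrow P K →
      (fibreNumber P : ℝ) ≤ c * Fintype.card P)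
    (hne : ∃ (n : ℕ) (_ : PartialOrder (Fin (n + 1))), Narrow (Fin (n + 1)) K) :
    narrowConst K ≤ c := by
  obtain ⟨n0, po0, h0⟩ := hne
  refine csSup_le ⟨_, n0, po0, h0, rfl⟩ ?_
  rintro r ⟨n, po, hn, rfl⟩
  rw [div_le_iff₀ (by positivity)]
  have := h (Fin (n + 1)) hn
  rwa [Fintype.card_fin] at this

theorem le_narrowConst {K : ℕ} {c : ℝ}
    (h : ∀ (P : Type) [PartialOrder P] [Fintype P], Narrow P K →
      (fibreNumber P : ℝ) ≤ c * Fintype.card P)
    (n : ℕ) (po : PartialOrder (Fin (n + 1))) (hn : Narrow (Fin (n + 1)) K) :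
    (fibreNumber (Fin (n + 1)) : ℝ) / (n + 1 : ℕ) ≤ narrowConst K := by
  refine le_csSup ⟨c, ?_⟩ ⟨n, po, hn, rfl⟩
  rintro r ⟨n', po', hn', rfl⟩
  rw [div_le_iff₀ (by positivity)]
  have := h (Fin (n' + 1)) hn'
  rwa [Fintype.card_fin] at this

theorem discConst_le {K : ℕ} {c : ℝ}
    (h : ∀ (P : Type) [PartialOrder P] [Fintype P], Narrow P K →
      (fibreNumber P : ℝ) ≤ c * Fintype.card P)
    (hne : ∃ (n : ℕ) (_ : PartialOrder (Fin (n + 1))), DiscLe (Fin (n + 1)) K) :
    discConst K ≤ c := by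
  obtain ⟨n0, po0, h0⟩ := hne
  refine csSup_le ⟨_, n0, po0, h0, rfl⟩ ?_
  rintro r ⟨n, po, hn, rfl⟩
  rw [div_le_iff₀ (by positivity)]
  have := h (Fin (n + 1)) hn.narrow
  rwa [Fintype.card_fin] at this

theorem le_discConst {K : ℕ} {c : ℝ}
    (h : ∀ (P : Type) [PartialOrder P] [Fintype P], Narrow P K →
      (fibreNumber P : ℝ) ≤ c * Fintype.card P)
    (n : ℕ) (po : PartialOrder (Fin (n + 1))) (hn : DiscLe (Fin (n + 1)) K) :
    (fibreNumber (Fin (n + 1)) : ℝ) / (n + 1 : ℕ) ≤ discConst K := by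
  refine le_csSup ⟨c, ?_⟩ ⟨n, po, hn, rfl⟩
  rintro r ⟨n', po', hn', rfl⟩
  rw [div_le_iff₀ (by positivity)]
  have := h (Fin (n' + 1)) hn'.narrow
  rwa [Fintype.card_fin] at this

/-! ### The antichain with two elements -/

/-- The antichain on two elements. -/
@[reducible] def two : PartialOrder (Fin (1 + 1)) where
  le i j := i = j
  lt i j := i = j ∧ ¬ j = i
  le_refl i := rfl
  le_trans i j l h1 h2 := h1.trans h2
  le_antisymm i j h _ := h

theorem two_disc : @DiscLe (Fin (1 + 1)) two 1 := by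
  refine ⟨2, Equiv.refl _, ?_, ?_⟩
  · rintro x y ⟨h1, h2⟩
    exact absurd h1.symm h2
  · rintro x y - -
    have h1 := x.isLt
    change (x : ℕ) ≤ (y : ℕ) + 1
    omega

theorem two_fibre : 1 ≤ @fibreNumber (Fin (1 + 1)) two := by
  obtain ⟨F, hF, hcard⟩ := @exists_fibre_eq (Fin (1 + 1)) two _
  rw [← hcard, Nat.succ_le_iff, card_pos]
  obtain ⟨x, -, hx⟩ := hF Set.univ (by
    constructor
    · intro a _ b _ hab hle
      exact hab hle
    · intro B _ hB
      exact Set.Subset.antisymm hB (Set.subset_univ B)) ⟨0, trivial, 1, trivial, by decide⟩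
  exact ⟨x, hx⟩

theorem const_three {K : ℕ} (h1 : 1 ≤ K) (h3 : K ≤ 3) :
    narrowConst K = 1 / 2 ∧ discConst K = 1 / 2 := by
  have hup : ∀ (P : Type) [PartialOrder P] [Fintype P], Narrow P K →
      (fibreNumber P : ℝ) ≤ (1 / 2 : ℝ) * Fintype.card P := by
    intro P _ _ hP
    have h := three P (hP.mono h3)
    have h' : (2 : ℝ) * (fibreNumber P : ℝ) ≤ (Fintype.card P : ℝ) := by exact_mod_cast h
    linarith
  have htwo : @DiscLe (Fin (1 + 1)) two K := @DiscLe.mono _ two _ _ two_disc h1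
  have htwo' : @Narrow (Fin (1 + 1)) two K := @DiscLe.narrow _ two _ htwo
  have h4 : (1 / 2 : ℝ) ≤ (@fibreNumber (Fin (1 + 1)) two : ℝ) / (1 + 1 : ℕ) := by
    have h2 : (1 : ℝ) ≤ (@fibreNumber (Fin (1 + 1)) two : ℝ) := by exact_mod_cast two_fibre
    rw [le_div_iff₀ (by norm_num)]
    push_cast
    linarith
  exact ⟨le_antisymm (narrowConst_le hup ⟨1, two, htwo'⟩)
    (h4.trans (le_narrowConst hup 1 two htwo')),
    le_antisymm (discConst_le hup ⟨1, two, htwo⟩) (h4.trans (le_discConst hup 1 two htwo))⟩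

/-! ### The periodic ordered sets -/

theorem periodic_disc (n : ℕ) : @DiscLe (Fin n) (Pool.Agent.H59.Fib.K.po n) 4 := by
  refine ⟨n, Equiv.refl _, ?_, ?_⟩
  · rintro x y ⟨h1, h2⟩
    rcases h1 with h1 | h1
    · exact absurd (Or.inl h1.symm) h2
    · exact h1.1
  · rintro x y - hyx
    change (x : ℕ) ≤ (y : ℕ) + 4
    by_contra hcon
    push Not at hcon
    refine hyx (Or.inr ⟨?_, ?_⟩)
    · clear hyx
      omega
    · clear hyx
      rw [← Bool.not_eq_true]
      intro h
      have := Pool.Agent.H59.Fib.K.bad_le_four h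
      omega

theorem periodic_fibre (n : ℕ) :
    8 * n ≤ 15 * @fibreNumber (Fin n) (Pool.Agent.H59.Fib.K.po n) + 159 := by
  obtain ⟨F, hF, hcard⟩ := @exists_fibre_eq (Fin n) (Pool.Agent.H59.Fib.K.po n) _
  rw [← hcard]
  exact Pool.Agent.H59.Fib.K.fibre_lower F hF

theorem const_four {K : ℕ} (h4 : 4 ≤ K) (hK : ∀ (P : Type) [PartialOrder P] [Fintype P],
    Narrow P K → 15 * fibreNumber P ≤ 8 * Fintype.card P) :
    narrowConst K = 8 / 15 ∧ discConst K = 8 / 15 := by
  have hup : ∀ (P : Type) [PartialOrder P] [Fintype P], Narrow P K →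
      (fibreNumber P : ℝ) ≤ (8 / 15 : ℝ) * Fintype.card P := by
    intro P _ _ hP
    have h := hK P hP
    have h' : (15 : ℝ) * (fibreNumber P : ℝ) ≤ 8 * (Fintype.card P : ℝ) := by exact_mod_cast h
    linarith
  have hper : ∀ n : ℕ, @DiscLe (Fin n) (Pool.Agent.H59.Fib.K.po n) K :=
    fun n => @DiscLe.mono _ (Pool.Agent.H59.Fib.K.po n) _ _ (periodic_disc n) h4
  have hper' : ∀ n : ℕ, @Narrow (Fin n) (Pool.Agent.H59.Fib.K.po n) K :=
    fun n => @DiscLe.narrow _ (Pool.Agent.H59.Fib.K.po n) _ (hper n)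
  have key : ∀ c : ℝ, (∀ n : ℕ, (@fibreNumber (Fin (n + 1)) (Pool.Agent.H59.Fib.K.po (n + 1)) : ℝ)
      / (n + 1 : ℕ) ≤ c) → 8 / 15 ≤ c := by
    intro c hc
    by_contra hcon
    push Not at hcon
    obtain ⟨n, hn⟩ := exists_nat_gt (159 / 15 / (8 / 15 - c))
    have hpos : (0 : ℝ) < 8 / 15 - c := by linarith
    rw [div_lt_iff₀ hpos] at hn
    have h1 := hc n
    have h2 := periodic_fibre (n + 1)
    have h3 : (8 : ℝ) * ((n : ℝ) + 1)
        ≤ 15 * (@fibreNumber (Fin (n + 1)) (Pool.Agent.H59.Fib.K.po (n + 1)) : ℝ) + 159 := by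
      exact_mod_cast h2
    rw [div_le_iff₀ (by positivity)] at h1
    push_cast at h1
    have h4 : (0 : ℝ) ≤ n := Nat.cast_nonneg n
    nlinarith
  exact ⟨le_antisymm (narrowConst_le hup ⟨0, Pool.Agent.H59.Fib.K.po 1, hper' 1⟩)
    (key _ fun n => le_narrowConst hup n (Pool.Agent.H59.Fib.K.po (n + 1)) (hper' (n + 1))),
    le_antisymm (discConst_le hup ⟨0, Pool.Agent.H59.Fib.K.po 1, hper 1⟩)
    (key _ fun n => le_discConst hup n (Pool.Agent.H59.Fib.K.po (n + 1)) (hper (n + 1)))⟩

/-- Every 3-narrow ordered set `P` has a fibre with at most `|P| / 2` elements, every 5-narrow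
ordered set has one with at most `8 |P| / 15` elements, ordered sets of linear discrepancy at most
`K` are `K`-narrow, and the smallest fibre constants of the `K`-narrow ordered sets and of the
ordered sets of linear discrepancy at most `K` are both `1 / 2` for `K = 1, 2, 3` and `8 / 15` for
`K = 4, 5`. -/
theorem result :
    (∀ (P : Type) [PartialOrder P] [Fintype P], Narrow P 3 →
      2 * fibreNumber P ≤ Fintype.card P) ∧
    (∀ (P : Type) [PartialOrder P] [Fintype P], Narrow P 5 →
      15 * fibreNumber P ≤ 8 * Fintype.card P) ∧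
    (∀ (P : Type) [PartialOrder P] (K : ℕ), DiscLe P K → Narrow P K) ∧
    (∀ K : ℕ, 1 ≤ K → K ≤ 3 → narrowConst K = 1 / 2 ∧ discConst K = 1 / 2) ∧
    (∀ K : ℕ, 4 ≤ K → K ≤ 5 → narrowConst K = 8 / 15 ∧ discConst K = 8 / 15) :=
  ⟨three, five, fun _ _ _ h => h.narrow, fun _ h1 h3 => const_three h1 h3,
    fun _ h4 h5 => const_four h4 fun P _ _ h => five P (h.mono h5)⟩

end Pool.Agent.Results.MP_14adb8_co.NarrowOrders
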