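import Pool.Agent.H59.Fib.Five

/-!
# Every finite ordered set has a fibre of size at most `3 / 5` of its size

A fibre of a finite ordered set meets every maximal antichain with at least two elements.  We show
that the smallest fibre constant is at most `3 / 5`.
-/

namespace Pool.Agent.Results.MP_14adb8_co.ThreeFifths

open Finset

/-- `F` meets every maximal antichain with at least two elements. -/
def IsFibre {P : Type} [PartialOrder P] (F : Finset P) : Prop :=
  ∀ A : Set P, IsMaxAntichain (· ≤ ·) A → A.Nontrivial → ∃ x ∈ A, x ∈ F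

/-- The minimum size of a fibre. -/
noncomputable def fibreNumber (P : Type) [PartialOrder P] : ℕ :=
  sInf {k : ℕ | ∃ F : Finset P, IsFibre F ∧ F.card = k}

/-- The supremum of `f(P) / |P|` over all finite nonempty ordered sets `P`. -/
noncomputable def lambdaStar : ℝ :=
  sSup {r : ℝ | ∃ (n : ℕ) (_ : PartialOrder (Fin (n + 1))),
    r = (fibreNumber (Fin (n + 1)) : ℝ) / (n + 1 : ℕ)}

theorem exists_fibre (P : Type) [PartialOrder P] [Fintype P] :
    ∃ F : Finset P, IsFibre F ∧ 5 * F.card ≤ 3 * Fintype.card P := by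
  classical
  rcases isEmpty_or_nonempty P with hP | hP
  · refine ⟨∅, ?_, by simp⟩
    rintro A - ⟨x, -⟩
    exact (hP.false x).elim
  · obtain ⟨U, hU, hcard⟩ := Pool.Agent.H59.Fib.exists_large_co (P := P)
    refine ⟨Uᶜ, ?_, ?_⟩
    · intro A hA hne
      by_contra hcon
      push Not at hcon
      have hAU : A ⊆ (U : Set P) := by
        intro a ha
        have := hcon a ha
        simpa using this
      obtain ⟨z, hz⟩ := hU A hAU hne hA.1
      have hzA : z ∉ A := fun h => (hz z h).1 le_rfl
      have h1 : IsAntichain (· ≤ ·) (insert z A) := by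
        refine hA.1.insert (fun b hb _ => (hz b hb).1) (fun b hb _ => (hz b hb).2)
      have h2 := hA.2 h1 (Set.subset_insert z A)
      exact hzA (by rw [h2]; exact Set.mem_insert z A)
    · rw [card_compl]
      have := card_le_univ U
      omega

/-- Every finite ordered set `P` has a fibre with at most `3 |P| / 5` elements; hence the smallest
fibre constant is at most `3 / 5`. -/
theorem result :
    (∀ (P : Type) [PartialOrder P] [Fintype P], 5 * fibreNumber P ≤ 3 * Fintype.card P) ∧
    lambdaStar ≤ 3 / 5 := by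
  have h0 : ∀ (P : Type) [PartialOrder P] [Fintype P],
      5 * fibreNumber P ≤ 3 * Fintype.card P := by
    intro P _ _
    obtain ⟨F, hF, hcard⟩ := exists_fibre P
    have h1 : fibreNumber P ≤ F.card := Nat.sInf_le ⟨F, hF, rfl⟩
    omega
  refine ⟨h0, ?_⟩
  refine csSup_le ⟨_, 0, inferInstance, rfl⟩ ?_
  rintro r ⟨n, po, rfl⟩
  have h1 := h0 (Fin (n + 1))
  rw [Fintype.card_fin] at h1
  rw [div_le_iff₀ (by positivity)]
  have h2 : (5 : ℝ) * (fibreNumber (Fin (n + 1)) : ℝ) ≤ 3 * ((n + 1 : ℕ) : ℝ) := by
    exact_mod_cast h1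
  linarith

end Pool.Agent.Results.MP_14adb8_co.ThreeFifths
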